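import Pool.Agent.N538.TwoNum.Upper
import Pool.Agent.N538.TwoNum.Homeo
import Pool.Agent.N538.TwoNum.Inv

/-!
# MP_efd99a_gt, Q1: the two-number is not the total mod 2 Betti number

`S¹ × (S³ × S³)/{±1}` and `(S¹ × S³ × S³)/{(ε₁, ε₂, ε₃) : ε₁ ε₂ ε₃ = 1}` are homeomorphic compact
symmetric spaces (even compact Lie groups with bi-invariant metrics); the two-number of the first is
at least `16`, the two-number of the second at most `8`. So the two-number is not a topological
invariant, and the equality with the total mod 2 Betti number fails for some compact connected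
symmetric space.
-/

set_option autoImplicit false

open Topology Metric
open scoped TensorProduct RealInnerProductSpace Quaternion

namespace Pool.Agent.Results.MP_efd99a_gt.TwoNumberNotTopological

open Pool.Agent.N538.TwoNum

theorem two_le_eight : spaceTwo.twoNumber ≤ 8 := by
  refine iSup_le ?_
  rintro ⟨A, hA, hfix⟩
  exact encard_le_eight (U := ℂ) (X := ℍ) (Y := ℍ) Complex.finrank_real_complex
    Quaternion.finrank_eq_four (by rw [Quaternion.rank_eq_four]; norm_num) A hA hfix

/-- **Negative answer to Q1.** (1) The equality `#₂ M = dim H(M; ℤ₂)` does not hold for all connected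
compact symmetric spaces. (2) There are two homeomorphic connected compact symmetric spaces, the
first with two-number at least `16` and the second with two-number at most `8`; hence no invariant
of the homeomorphism type equals the two-number. -/
theorem result :
    (¬ ∀ (E : Type) [NormedAddCommGroup E] [InnerProductSpace ℝ E] [FiniteDimensional ℝ E]
        (M : SymSpace E), M.twoNumber = totalBetti M.carrier) ∧
    ∃ (E : Type) (_ : NormedAddCommGroup E) (_ : InnerProductSpace ℝ E)
      (_ : FiniteDimensional ℝ E) (F : Type) (_ : NormedAddCommGroup F)
      (_ : InnerProductSpace ℝ F) (_ : FiniteDimensional ℝ F) (M : SymSpace E) (N : SymSpace F),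
      Nonempty (M.carrier ≃ₜ N.carrier) ∧ 16 ≤ M.twoNumber ∧ N.twoNumber ≤ 8 := by
  constructor
  · intro h
    obtain ⟨e⟩ := homeomorphic
    have h1 := h _ spaceOne
    have h2 := h _ spaceTwo
    have h3 : (16 : ℕ∞) ≤ 8 := by
      calc (16 : ℕ∞) ≤ spaceOne.twoNumber := sixteen_le
        _ = totalBetti spaceTwo.carrier := by rw [h1, totalBetti_congr e]
        _ = spaceTwo.twoNumber := h2.symm
        _ ≤ 8 := two_le_eight
    exact absurd h3 (by decide)
  · exact ⟨_, inferInstance, inferInstance, inferInstance, _, inferInstance, inferInstance,
      inferInstance, spaceOne, spaceTwo, homeomorphic, sixteen_le, two_le_eight⟩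

end Pool.Agent.Results.MP_efd99a_gt.TwoNumberNotTopological
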